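import Pool.Agent.X179.EP.Six

/-!
# Einstein position of negatively curved tensors and the Hopf sign

Let `R` be an algebraic curvature tensor of negative sectional curvature on a vector space of dimension
`n ≥ 3`. There is exactly one inner product `h` relative to which `R` is Einstein with Ricci tensor
`-(n - 1) h` (so a Riemannian manifold of negative curvature of dimension at least three carries a
second, canonical metric `h`; for constant curvature `-κ` it is `√κ g`). Its volume element is at most
`(-scal / (n (n - 1))) ^ (n / 4)` times that of the given inner product.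

The Gauss-Bonnet-Chern integrand only changes by the square of a determinant when the inner product is
changed, so its sign may be read off in the position where `R` is Einstein:

* the sign question for all tensors of negative curvature is the sign question for the Einstein ones;
* in dimension six the integrand is negative when the curvatures relative to `h` are at least `-2`;
* in dimension `2 m ≥ 6` it has the sign `(-1) ^ m` when the curvature operator relative to `h` is at
  least `-c`, `pol m (1 - 1 / c) > 0` (for example `c ≤ 1.728` in dimension six).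

The metric `h` is found by minimising `-∑ R (b_i, b_j, b_i, b_j)` over the bases `b` of volume one.
The signs for Einstein tensors are those of the starting results `EinsteinDimSix` and
`MP_ebfab8_gt.OneSidedOperator`.
-/

namespace Pool.Agent.Results.MP_5a30bb_gt.EinsteinPosition

open MeasureTheory Pool.Agent.X179.EP
open Pool.Agent.W666.GB (AlgCurv gbc roundGB CurvField)
open Pool.Agent.TH594.HE (pol)

/-- A negatively curved tensor in dimension `n ≥ 3` has exactly one Einstein metric `h`, and
`(det h) ^ 2 (n (n - 1)) ^ n ≤ (-scal) ^ n`. -/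
def CanonicalMetric : Prop :=
  ∀ (n : ℕ) (V : Type) [NormedAddCommGroup V] [InnerProductSpace ℝ V]
    (e : OrthonormalBasis (Fin n) ℝ V) (R : V → V → V → V → ℝ), 3 ≤ n → AlgCurv R → NegSec R →
      (∃! h : LinearMap.BilinForm ℝ V, EinsteinMetric (Fin n) R h) ∧
      ∀ h : LinearMap.BilinForm ℝ V, EinsteinMetric (Fin n) R h →
        (Matrix.det fun i j => h (e i) (e j)) ^ 2 * ((n : ℝ) * (n - 1)) ^ n ≤
          (-∑ i, ∑ j, R (e i) (e j) (e i) (e j)) ^ n

/-- The integrand under linear maps, and the linear map that makes `R` Einstein. -/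
def Reduction : Prop :=
  ∀ (m : ℕ) (V : Type) [NormedAddCommGroup V] [InnerProductSpace ℝ V]
    (e : OrthonormalBasis (Fin m × Bool) ℝ V) (R : V → V → V → V → ℝ), AlgCurv R →
      (∀ A : V →ₗ[ℝ] V, gbc e (fun x y z w => R (A x) (A y) (A z) (A w)) =
        LinearMap.det A ^ 2 * gbc e R) ∧
      (2 ≤ m → NegSec R → ∃ A : V ≃ₗ[ℝ] V,
        (∀ v w : V, ∑ i, R (A (e i)) (A v) (A (e i)) (A w) = -(2 * m - 1) * inner ℝ v w) ∧
        NegSec (fun x y z w => R (A x) (A y) (A z) (A w)))

/-- `R x y x y ≤ 0` for all `x`, `y`, and `h` is an Einstein metric of `R` relative to which the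
sectional curvatures are at least `-2`. -/
def SixHyp {V : Type} [NormedAddCommGroup V] [InnerProductSpace ℝ V] (R : V → V → V → V → ℝ)
    (h : LinearMap.BilinForm ℝ V) : Prop :=
  (∀ x y, R x y x y ≤ 0) ∧ EinsteinMetric (Fin 3 × Bool) R h ∧
    ∀ x y, h x x = 1 → h y y = 1 → h x y = 0 → -2 ≤ R x y x y

/-- The sign in dimension six. -/
def SixSign : Prop :=
  (∀ (V : Type) [NormedAddCommGroup V] [InnerProductSpace ℝ V]
    (e : OrthonormalBasis (Fin 3 × Bool) ℝ V) (R : V → V → V → V → ℝ)
    (h : LinearMap.BilinForm ℝ V), AlgCurv R → SixHyp R h →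
      gbc e R ≤ -(1 / 50 * roundGB 3 1 * Matrix.det fun i j => h (e i) (e j)) ∧ gbc e R < 0) ∧
  (∀ (M : Type) [MeasurableSpace M] (μ : Measure M) (K : CurvField 3 M)
    (h : ∀ p, LinearMap.BilinForm ℝ (K.V p)), μ ≠ 0 → Integrable K.gb μ →
      (∀ p, SixHyp (K.R p) (h p)) → ∫ p, K.gb p ∂μ < 0)

/-- `h` is an Einstein metric of `R` relative to which the curvature operator is at least `-c`,
where `pol m (1 - 1 / c) > 0`. -/
def OpHyp (m : ℕ) {V : Type} [NormedAddCommGroup V] [InnerProductSpace ℝ V]
    (R : V → V → V → V → ℝ) (h : LinearMap.BilinForm ℝ V) (c : ℝ) : Prop :=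
  0 < c ∧ EinsteinMetric (Fin m × Bool) R h ∧ OpGe R h c ∧ 0 < pol m (1 - 1 / c)

/-- The sign in dimension `2 m ≥ 6`. -/
def OperatorSign : Prop :=
  (∀ (m : ℕ) (V : Type) [NormedAddCommGroup V] [InnerProductSpace ℝ V]
    (e : OrthonormalBasis (Fin m × Bool) ℝ V) (R : V → V → V → V → ℝ)
    (h : LinearMap.BilinForm ℝ V) (c : ℝ), 3 ≤ m → AlgCurv R → OpHyp m R h c →
      0 < (-1) ^ m * gbc e R) ∧
  (∀ (m : ℕ) (M : Type) [MeasurableSpace M] (μ : Measure M) (K : CurvField m M)
    (h : ∀ p, LinearMap.BilinForm ℝ (K.V p)) (c : M → ℝ), 3 ≤ m → μ ≠ 0 →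
      Integrable K.gb μ → (∀ p, OpHyp m (K.R p) (h p) (c p)) → 0 < (-1) ^ m * ∫ p, K.gb p ∂μ)

/-- Einstein position, and the sign of the Gauss-Bonnet-Chern integrand relative to it. -/
theorem result : CanonicalMetric ∧ Reduction ∧ SixSign ∧ OperatorSign := by
  have hint : ∀ (M : Type) [MeasurableSpace M] (μ : Measure M) (f : M → ℝ), μ ≠ 0 →
      Integrable f μ → (∀ p, 0 < f p) → 0 < ∫ p, f p ∂μ := by
    intro M _ μ f hμ hi h
    have h0 : 0 ≤ f := fun p => (h p).le
    rw [integral_pos_iff_support_of_nonneg h0 hi]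
    have hs : Function.support f = Set.univ := by
      ext p
      simp only [Function.mem_support, Set.mem_univ, iff_true]
      exact (h p).ne'
    rw [hs]
    exact pos_iff_ne_zero.2 (by simpa using hμ)
  refine ⟨?_, ?_, ⟨?_, ?_⟩, ⟨?_, ?_⟩⟩
  · intro n V _ _ e R hn hR hneg
    have hc : 3 ≤ Fintype.card (Fin n) := by rw [Fintype.card_fin]; exact hn
    obtain ⟨h, hh, hvol⟩ := exists_metric (neg_alg hR) e hc hneg.pos
    rw [Fintype.card_fin] at hvol
    have huniq : ∀ h' : LinearMap.BilinForm ℝ V, EinsteinMetric (Fin n) R h' → h' = h :=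
      fun h' hh' => unique_metric (neg_alg hR) e hc hneg.pos hh' hh
    exact ⟨⟨h, hh, huniq⟩, fun h' hh' => by rw [huniq h' hh']; exact hvol⟩
  · intro m V _ _ e R hR
    refine ⟨fun A => gbc_pull hR e A, fun hm hneg => ?_⟩
    obtain ⟨A, h1, h2, -⟩ := exists_pull e hR hm hneg
    exact ⟨A, h1, h2⟩
  · intro V _ _ e R h hR hp
    exact six_h e hR hp.1 hp.2.1 hp.2.2
  · intro M _ μ K h hμ hi hp
    have h1 := hint M μ (fun p => -K.gb p) hμ hi.neg fun p => by
      have := (six_h (K.e p) (K.curv p) (hp p).1 (hp p).2.1 (hp p).2.2).2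
      have h2 : K.gb p = gbc (K.e p) (K.R p) := rfl
      linarith
    rw [integral_neg] at h1
    linarith
  · intro m V _ _ e R h c hm hR hp
    exact op_h e hR hm hp.2.1 hp.1 hp.2.2.1 hp.2.2.2
  · intro m M _ μ K h c hm hμ hi hp
    rw [← integral_const_mul]
    exact hint M μ _ hμ (hi.const_mul _) fun p =>
      op_h (K.e p) (K.curv p) hm (hp p).2.1 (hp p).1 (hp p).2.2.1 (hp p).2.2.2

end Pool.Agent.Results.MP_5a30bb_gt.EinsteinPosition
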