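import Pool.Agent.X181.SP.Main

/-!
# The Hopf sign for submanifolds of low codimension of products of hyperbolic spaces

Let `M` be a submanifold of dimension `2 m` of a Riemannian manifold `N`. Let `V`, `W` be the tangent and
the normal space of `M` at a point and `β` the second fundamental form. By the Gauss equation the
curvature tensor of `M` is `ext β + (restriction of the curvature tensor of N)`.

`Dec A`: the tensor `A` is a finite sum of squares of decomposable two-forms. The negative of the
curvature tensor of `N` has this property if `N` is a real hyperbolic space, a surface of nonpositive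
curvature, a complex hyperbolic space of any dimension (a new decomposition of the curvature tensor of
complex projective space, with random fourth roots of unity, is used), a warped product of such spaces
with convex warping functions, or a Riemannian product of such spaces of any dimensions.

If the extrinsic sectional curvatures `⟨β(x,x), β(y,y)⟩ - |β(x,y)|²` are nonpositive and the codimension of
`M` is at most three, the Gauss–Bonnet–Chern integrand of `M` has the Hopf sign; more precisely, up to this
sign it is at least the sum of the integrand of the extrinsic curvature tensor and the integrand of the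
restriction of the curvature tensor of `N`. In dimension six this holds in every codimension, if no
shape operator is definite on a subspace of dimension four (for example for austere submanifolds).
-/

set_option autoImplicit false

namespace Pool.Agent.Results.MP_5a30bb_gt.LowCodimension

open Pool.Agent.W666.GB Pool.Agent.W669.HD Pool.Agent.Y519.HB Pool.Agent.X181.SP MeasureTheory

/-- **The Hopf sign for submanifolds of nonpositive extrinsic curvature and codimension at most
three.** -/
theorem result :
    -- (1) codimension at most three, every even dimension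
    (∀ (m : ℕ) (V W : Type) [NormedAddCommGroup V] [InnerProductSpace ℝ V]
      [NormedAddCommGroup W] [InnerProductSpace ℝ W] [FiniteDimensional ℝ W]
      (e : OrthonormalBasis (Fin m × Bool) ℝ V) (β : V → V → W) (A : V → V → V → V → ℝ) (δ : ℝ),
      0 < m → Sff β → ExtNonpos β → Module.finrank ℝ W ≤ 3 → Dec A → 0 ≤ δ →
        0 ≤ (-1) ^ m * gbc e (ext β) ∧
        roundGB m δ ≤ (-1) ^ m * gbc e (fun x y z w => -A x y z w - δ * unitT x y z w) ∧
        (-1) ^ m * gbc e (ext β) +
          (-1) ^ m * gbc e (fun x y z w => -A x y z w - δ * unitT x y z w) ≤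
          (-1) ^ m * gbc e (fun x y z w => ext β x y z w - A x y z w - δ * unitT x y z w)) ∧
    -- (2) dimension six, every codimension
    (∀ (V W : Type) [NormedAddCommGroup V] [InnerProductSpace ℝ V]
      [NormedAddCommGroup W] [InnerProductSpace ℝ W] [FiniteDimensional ℝ W]
      (e : OrthonormalBasis (Fin 3 × Bool) ℝ V) (β : V → V → W) (A : V → V → V → V → ℝ) (δ : ℝ),
      Sff β → ExtNonpos β → Saddle3 β → Dec A → 0 ≤ δ →
        gbc e (ext β) ≤ 0 ∧
        gbc e (fun x y z w => -A x y z w - δ * unitT x y z w) ≤ -roundGB 3 δ ∧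
        gbc e (fun x y z w => ext β x y z w - A x y z w - δ * unitT x y z w) ≤
          gbc e (ext β) + gbc e (fun x y z w => -A x y z w - δ * unitT x y z w)) ∧
    -- (3) the ambient spaces: real space forms, complex hyperbolic spaces, warped terms, products
    (∀ (V : Type) [NormedAddCommGroup V] [InnerProductSpace ℝ V] [FiniteDimensional ℝ V],
      (∀ (d : ℕ) (P : V →ₗ[ℝ] Fin d → ℝ), Dec (realT (fun v => P v))) ∧
      (∀ (d : ℕ) (Q : V →ₗ[ℝ] Fin d → ℂ), Dec (cxT (fun v => Q v))) ∧
      (∀ (p q : ℕ) (P : V →ₗ[ℝ] Fin p → ℝ) (Q : V →ₗ[ℝ] Fin q → ℝ),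
        Dec (kn (fun a b => ∑ i, P a i * P b i) (fun a b => ∑ j, Q a j * Q b j))) ∧
      (∀ (A B : V → V → V → V → ℝ) (s t : ℝ), Dec A → Dec B → 0 ≤ s → 0 ≤ t →
        Dec (fun a b c d => s * A a b c d + t * B a b c d))) ∧
    -- (4) the integrated form
    (∀ (m : ℕ) (M : Type) [MeasurableSpace M] (μ : Measure M) (K : CurvField m M) (δ : M → ℝ),
      0 < m →
      (∀ p, 0 ≤ δ p ∧ ∃ (q : ℕ) (β : K.V p → K.V p → EuclideanSpace ℝ (Fin q))
        (A : K.V p → K.V p → K.V p → K.V p → ℝ), (q ≤ 3 ∨ m = 3 ∧ Saddle3 β) ∧ Sff β ∧
          ExtNonpos β ∧ Dec A ∧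
          K.R p = fun x y z w => ext β x y z w - A x y z w - δ p * unitT x y z w) →
      0 ≤ (-1) ^ m * ∫ p, K.gb p ∂μ ∧
        (Integrable K.gb μ → ∫ p, roundGB m (δ p) ∂μ ≤ (-1) ^ m * ∫ p, K.gb p ∂μ)) :=
  ⟨fun _ _ _ _ _ _ _ _ e _ _ _ hm hs hK hd hA hδ => main hm e hs hK hd hA hδ,
    fun _ _ _ _ _ _ _ e _ _ _ hs hK hd hA hδ => six e hs hK hd hA hδ,
    fun _ _ _ _ => ⟨fun _ P => Dec.real P, fun _ Q => Dec.cx Q, fun _ _ P Q => Dec.psd P Q,
      fun _ _ _ _ hA hB hs ht => (hA.smul hs).add (hB.smul ht)⟩,
    fun _ M _ μ K δ hm h => integrated hm M μ K δ h⟩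

end Pool.Agent.Results.MP_5a30bb_gt.LowCodimension
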