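import Pool.Agent.X179.NB.Sharp

/-!
# The Hopf sign in dimension six from the norm of the curvature tensor

Let `R` be an algebraic curvature tensor in dimension six, `|R|²` and `|Ric|²` the sums of the squares
of the components of `R` and of its Ricci tensor, `S` the scalar curvature and `gbc` the
Gauss-Bonnet-Chern integrand.

* `|gbc| ≤ roundGB 3 1 (|R|² / 60) ^ (3/2)`, with equality for constant curvature;
* `S gbc ≥ |R|² (S² - 2 |R|² - 4 |Ric|²) / (256 π³)`, so `gbc` has the sign of `S` as soon as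
  `2 |R|² + 4 |Ric|² < S²` (equivalently `|W|² + 3 |Z|² < S² / 10`, `W` the Weyl and `Z` the traceless
  Ricci part), in particular for an Einstein tensor with `Ric = 5 κ` and `|R|² < 150 κ²`;
* the constant `150` is optimal, with equality and `gbc = 0` for a product of two hyperbolic
  three-spaces.

There is no assumption on the sectional curvatures.
-/

namespace Pool.Agent.Results.MP_5a30bb_gt.NormPinching

open MeasureTheory Pool.Agent.X179.NB
open Pool.Agent.X179.EP (pull)
open Pool.Agent.W666.GB (AlgCurv gbc scal roundGB CurvField)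
open Pool.Agent.W669.HD (unitT)

/-- The norm bound, and equality for constant curvature. -/
def NormBound : Prop :=
  ∀ (V : Type) [NormedAddCommGroup V] [InnerProductSpace ℝ V]
    (e : OrthonormalBasis (Fin 3 × Bool) ℝ V),
    (∀ R : V → V → V → V → ℝ, AlgCurv R →
      gbc e R ^ 2 ≤ roundGB 3 1 ^ 2 * (curvSq e R / 60) ^ 3) ∧
    ∀ c : ℝ, gbc e (fun x y z w => c * unitT x y z w) ^ 2 =
      roundGB 3 1 ^ 2 * (curvSq e (fun x y z w => c * unitT x y z w) / 60) ^ 3

/-- `2 |R|² + 4 |Ric|² < S²` -/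
def Pinched {V : Type} [NormedAddCommGroup V] [InnerProductSpace ℝ V]
    (e : OrthonormalBasis (Fin 3 × Bool) ℝ V) (R : V → V → V → V → ℝ) : Prop :=
  2 * curvSq e R + 4 * ricSq e R < scal e R ^ 2

/-- The sign inequality, and the sign for tensors that some linear map makes pinched;
`pull A R` is `R (A ·) (A ·) (A ·) (A ·)`. -/
def SignBound : Prop :=
  ∀ (V : Type) [NormedAddCommGroup V] [InnerProductSpace ℝ V]
    (e : OrthonormalBasis (Fin 3 × Bool) ℝ V) (R : V → V → V → V → ℝ), AlgCurv R →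
    1 / (256 * Real.pi ^ 3) * (curvSq e R * (scal e R ^ 2 - 2 * curvSq e R - 4 * ricSq e R)) ≤
      scal e R * gbc e R ∧
    ∀ A : V →ₗ[ℝ] V, Pinched e (pull A R) → 0 < scal e (pull A R) * gbc e R

/-- the Ricci tensor is `5 κ` times the inner product -/
def Ein {V : Type} [NormedAddCommGroup V] [InnerProductSpace ℝ V]
    (e : OrthonormalBasis (Fin 3 × Bool) ℝ V) (R : V → V → V → V → ℝ) (κ : ℝ) : Prop :=
  ∀ v w : V, ∑ i, R (e i) v (e i) w = 5 * κ * inner ℝ v w

/-- Einstein tensors: the sign for `|R|² < 150 κ²`. -/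
def EinsteinSign : Prop :=
  ∀ (V : Type) [NormedAddCommGroup V] [InnerProductSpace ℝ V]
    (e : OrthonormalBasis (Fin 3 × Bool) ℝ V) (R : V → V → V → V → ℝ) (κ : ℝ),
    AlgCurv R → Ein e R κ →
      (curvSq e R ≤ 150 * κ ^ 2 → 0 ≤ κ * gbc e R) ∧
      (curvSq e R < 150 * κ ^ 2 → 0 < κ * gbc e R)

/-- The constant `150` is optimal. -/
def Optimal : Prop :=
  ∀ (V : Type) [NormedAddCommGroup V] [InnerProductSpace ℝ V]
    (e : OrthonormalBasis (Fin 3 × Bool) ℝ V),
    (∀ δ : ℝ, 0 < δ → ∃ (R : V → V → V → V → ℝ) (κ : ℝ), AlgCurv R ∧ κ < 0 ∧ Ein e R κ ∧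
      curvSq e R < (150 + δ) * κ ^ 2 ∧ 0 < gbc e R) ∧
    ∃ R : V → V → V → V → ℝ, AlgCurv R ∧ (∀ x y, R x y x y ≤ 0) ∧ Ein e R (-1) ∧
      curvSq e R = 150 ∧ gbc e R = 0

/-- Fields of tensors pinched, after linear maps, with negative scalar curvature; `K.gb` integrates
to the Euler characteristic of a closed 6-manifold. -/
def PinchedField : Prop :=
  ∀ (M : Type) [MeasurableSpace M] (μ : Measure M) (K : CurvField 3 M),
    μ ≠ 0 → Integrable K.gb μ →
    (∀ p, ∃ A : K.V p →ₗ[ℝ] K.V p,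
      Pinched (K.e p) (pull A (K.R p)) ∧ scal (K.e p) (pull A (K.R p)) < 0) →
    ∫ p, K.gb p ∂μ < 0

/-- Fields of constant negative scalar curvature, pinched on average. -/
def ConstScal : Prop :=
  ∀ (M : Type) [MeasurableSpace M] (μ : Measure M) (K : CurvField 3 M) (s : ℝ),
    Integrable K.gb μ → s < 0 → (∀ p, scal (K.e p) (K.R p) = s) →
    0 < ∫ p, curvSq (K.e p) (K.R p) *
      (s ^ 2 - 2 * curvSq (K.e p) (K.R p) - 4 * ricSq (K.e p) (K.R p)) ∂μ →
    ∫ p, K.gb p ∂μ < 0

/-- The integrated norm bound. -/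
def FieldBound : Prop :=
  ∀ (M : Type) [MeasurableSpace M] (μ : Measure M) (K : CurvField 3 M),
    Integrable (fun p => Real.sqrt (curvSq (K.e p) (K.R p) / 60) ^ 3) μ →
    |∫ p, K.gb p ∂μ| ≤ roundGB 3 1 * ∫ p, Real.sqrt (curvSq (K.e p) (K.R p) / 60) ^ 3 ∂μ

/-- The norm bound and the sign of the Gauss-Bonnet-Chern integrand in dimension six. -/
theorem result : (NormBound ∧ SignBound ∧ EinsteinSign ∧ Optimal) ∧
    PinchedField ∧ ConstScal ∧ FieldBound := by
  refine ⟨⟨?_, ?_, ?_, ?_⟩, ?_, ?_, ?_⟩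
  · intro V _ _ e
    exact ⟨fun R hR => norm_bound e hR, fun c => norm_eq e c⟩
  · intro V _ _ e R hR
    exact ⟨sign_bound e hR, fun A hA => sign_pull e hR A hA⟩
  · intro V _ _ e R κ hR hE
    exact ein_sign e hR hE
  · intro V _ _ e
    exact ⟨fun δ hδ => sharp_ein e hδ, equality_case e⟩
  · intro M _ μ K hμ hi h
    exact int_neg K hμ hi h
  · intro M _ μ K s hi hs hc h
    exact int_const K hi hs hc h
  · intro M _ μ K h
    exact int_norm K h

end Pool.Agent.Results.MP_5a30bb_gt.NormPinching
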