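import Pool.Agent.X183.HM.Six

/-!
# The sharp linear bound for the Gauss-Bonnet-Chern integrand in dimension six, relative to any metric

Let `R` be an algebraic curvature tensor in dimension six with all sectional curvatures in `[-c, 0]`.
Then the Gauss-Bonnet-Chern integrand is at most `roundGB 3 1 · c² (scal / 10 + 2 c)`, `roundGB 3 1`
being its absolute value for curvature one, and this bound is attained for every value of the scalar
curvature in `[-30 c, -20 c]`. So a closed Riemannian six-manifold with `-c ≤ K ≤ 0` whose scalar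
curvature is at most `-20 c` in the mean over the manifold has the Hopf sign. (The starting result
`MeanPinchedDimSix` needs `-24 c` at every point.)

The curvature tensor may be compared with an arbitrary inner product `h` on each tangent space
instead of the Riemannian metric: it is enough that `-c ≤ R(x, y, x, y) ≤ 0` for the `h`-orthonormal
pairs and that the scalar curvature of `R` relative to `h` is at most `-20 c`, where `h` and `c`
depend on the point.

The bound for negative curvature relative to the given inner product is in the module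
`Pool/Agent/TH570/Hopf/Final.lean` of the starting repository (never handed in; its mirror image for
positive curvature is the starting result `MP_4a593f_gt.SharpMeanDimSix`); the transformation rule is
in `Pool/Agent/X179/EP/`.
-/

set_option autoImplicit false

namespace Pool.Agent.Results.MP_5a30bb_gt.SharpMeanPinching

open MeasureTheory Pool.Agent.X183.HM
open Pool.Agent.W666.GB (AlgCurv gbc scal roundGB CurvField SecIn)
open Pool.Agent.X179.EP (IsMetric Ortho det_pos)

/-- The pointwise bound for sectional curvatures in `[-c, 0]`. -/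
def PointBound : Prop :=
  ∀ (V : Type) [NormedAddCommGroup V] [InnerProductSpace ℝ V]
    (e : OrthonormalBasis (Fin 3 × Bool) ℝ V) (R : V → V → V → V → ℝ) (c : ℝ),
    AlgCurv R → 0 ≤ c → SecIn R (-c) 0 →
      gbc e R ≤ roundGB 3 1 * (c ^ 2 * (scal e R / 10 + 2 * c))

/-- The bound is attained for every value `s` of the scalar curvature in `[-30 c, -20 c]`. -/
def Attained : Prop :=
  ∀ c s : ℝ, 0 ≤ c → -(30 * c) ≤ s → s ≤ -(20 * c) →
    ∃ (e : OrthonormalBasis (Fin 3 × Bool) ℝ (EuclideanSpace ℝ (Fin 6)))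
      (R : EuclideanSpace ℝ (Fin 6) → EuclideanSpace ℝ (Fin 6) → EuclideanSpace ℝ (Fin 6) →
        EuclideanSpace ℝ (Fin 6) → ℝ),
      AlgCurv R ∧ SecIn R (-c) 0 ∧ scal e R = s ∧
        gbc e R = roundGB 3 1 * (c ^ 2 * (s / 10 + 2 * c))

/-- `h` is an inner product, `b` is a basis orthonormal for `h`, and the sectional curvatures of `R`
relative to `h` lie in `[-c, 0]`. -/
def CurvIn {V : Type} [NormedAddCommGroup V] [InnerProductSpace ℝ V] (R : V → V → V → V → ℝ)
    (h : LinearMap.BilinForm ℝ V) (b : Fin 3 × Bool → V) (c : ℝ) : Prop :=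
  IsMetric h ∧ Ortho h b ∧ 0 ≤ c ∧
    ∀ x y : V, h x x = 1 → h y y = 1 → h x y = 0 → -c ≤ R x y x y ∧ R x y x y ≤ 0

/-- The Gram determinant of the orthonormal basis `e` for `h`: the square of the ratio of the volume
elements of `h` and of the given inner product. -/
noncomputable def gram {V : Type} [NormedAddCommGroup V] [InnerProductSpace ℝ V]
    (e : OrthonormalBasis (Fin 3 × Bool) ℝ V) (h : LinearMap.BilinForm ℝ V) : ℝ :=
  Matrix.det fun i j => h (e i) (e j)

/-- The bound and the sign relative to any inner product `h`. -/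
def OtherMetric : Prop :=
  ∀ (V : Type) [NormedAddCommGroup V] [InnerProductSpace ℝ V]
    (e : OrthonormalBasis (Fin 3 × Bool) ℝ V) (R : V → V → V → V → ℝ)
    (h : LinearMap.BilinForm ℝ V) (b : Fin 3 × Bool → V) (c : ℝ), AlgCurv R → CurvIn R h b c →
      0 < gram e h ∧
      gbc e R ≤ gram e h * (roundGB 3 1 * (c ^ 2 * (scalB R b / 10 + 2 * c))) ∧
      (scalB R b ≤ -(20 * c) → gbc e R ≤ 0) ∧
      (0 < c → scalB R b < -(20 * c) → gbc e R < 0)

/-- The integrated bound, for fields of tensors, inner products and numbers `c`; the integral of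
`K.gb` is the Euler characteristic, for the curvature tensor of a closed Riemannian six-manifold. -/
def FieldBound : Prop :=
  ∀ (M : Type) [MeasurableSpace M] (μ : Measure M) (K : CurvField 3 M)
    (h : ∀ p, LinearMap.BilinForm ℝ (K.V p)) (b : ∀ p, Fin 3 × Bool → K.V p) (c : M → ℝ),
    (∀ p, CurvIn (K.R p) (h p) (b p) (c p)) → Integrable K.gb μ →
    Integrable (fun p => gram (K.e p) (h p) *
      (c p ^ 2 * (scalB (K.R p) (b p) / 10 + 2 * c p))) μ →
      ∫ p, K.gb p ∂μ ≤ roundGB 3 1 * ∫ p, gram (K.e p) (h p) *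
        (c p ^ 2 * (scalB (K.R p) (b p) / 10 + 2 * c p)) ∂μ

/-- For constant `c` and the Riemannian metric itself, the sign follows from the mean of the scalar
curvature. -/
def MeanSign : Prop :=
  ∀ (M : Type) [MeasurableSpace M] (μ : Measure M) [IsFiniteMeasure μ] (K : CurvField 3 M) (c : ℝ),
    0 < c → (∀ p, SecIn (K.R p) (-c) 0) → Integrable K.gb μ →
    Integrable (fun p => scal (K.e p) (K.R p)) μ →
      (∫ p, scal (K.e p) (K.R p) ∂μ ≤ -(20 * c * μ.real Set.univ) → ∫ p, K.gb p ∂μ ≤ 0) ∧
      (∫ p, scal (K.e p) (K.R p) ∂μ < -(20 * c * μ.real Set.univ) → ∫ p, K.gb p ∂μ < 0)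

/-- If at every point some inner product `h` and some `c` satisfy the conditions with scalar curvature
at most `-20 c`, the integral has the Hopf sign; it is negative if the inequality is strict on a set
which is not null. -/
def PointwiseSign : Prop :=
  ∀ (M : Type) [MeasurableSpace M] (μ : Measure M) (K : CurvField 3 M), Integrable K.gb μ →
    (∀ p, ∃ h b c, CurvIn (K.R p) h b c ∧ scalB (K.R p) b ≤ -(20 * c)) →
      ∫ p, K.gb p ∂μ ≤ 0 ∧
      (μ {p | ∃ h b c, CurvIn (K.R p) h b c ∧ 0 < c ∧ scalB (K.R p) b < -(20 * c)} ≠ 0 →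
        ∫ p, K.gb p ∂μ < 0)

theorem other : OtherMetric := by
  intro V _ _ e R h b c hR hc
  obtain ⟨hh, hb, hc0, hs⟩ := hc
  have h1 : 0 < gram e h := det_pos e hb
  have h2 := mean_h e hR hb hc0 hs
  have hk := round_pos
  refine ⟨h1, h2, fun h3 => h2.trans ?_, fun h4 h3 => lt_of_le_of_lt h2 ?_⟩
  · have h5 : c ^ 2 * (scalB R b / 10 + 2 * c) ≤ 0 :=
      mul_nonpos_of_nonneg_of_nonpos (sq_nonneg _) (by linarith)
    exact mul_nonpos_of_nonneg_of_nonpos h1.le (mul_nonpos_of_nonneg_of_nonpos hk.le h5)
  · have h5 : c ^ 2 * (scalB R b / 10 + 2 * c) < 0 :=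
      mul_neg_of_pos_of_neg (by positivity) (by linarith)
    exact mul_neg_of_pos_of_neg h1 (mul_neg_of_pos_of_neg hk h5)

/-- **The sharp linear bound, relative to any metric.** -/
theorem result : (PointBound ∧ Attained ∧ OtherMetric) ∧ FieldBound ∧ MeanSign ∧ PointwiseSign := by
  refine ⟨⟨?_, ?_, other⟩, ?_, ?_, ?_⟩
  · intro V _ _ e R c hR hc hs
    exact mean_neg e hR hc hs
  · intro c s hc h1 h2
    obtain ⟨t, ht0, ht1, hts⟩ : ∃ t : ℝ, 0 ≤ t ∧ t ≤ 1 ∧ s = -((30 - 10 * t) * c) := by
      rcases hc.eq_or_lt with h0 | h0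
      · refine ⟨0, le_rfl, zero_le_one, ?_⟩
        subst h0
        linarith
      · refine ⟨(30 * c + s) / (10 * c), by apply div_nonneg <;> linarith, ?_, ?_⟩
        · rw [div_le_one (by linarith)]
          linarith
        · field_simp
          ring
    have hb : (EuclideanSpace.basisFun (Fin 6) ℝ) =
        ((EuclideanSpace.basisFun (Fin 6) ℝ).reindex Pool.Agent.X179.EP.i6).reindex
          Pool.Agent.X179.EP.i6.symm := by
      refine DFunLike.ext _ _ fun i => ?_
      simp
    refine ⟨(EuclideanSpace.basisFun (Fin 6) ℝ).reindex Pool.Agent.X179.EP.i6,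
      Pool.Agent.TH570.Hopf.ext6 c t, ?_, ?_, ?_, ?_⟩
    · have := Pool.Agent.TH570.Hopf.ext6_curv c t
      exact ⟨this.add, this.smul, this.anti, this.pair, this.bianchi⟩
    · exact Pool.Agent.TH570.Hopf.ext_sec hc ht0 ht1
    · rw [← scalar_eq, ← hb, Pool.Agent.TH570.Hopf.scalar_ext, hts]
    · rw [← Pool.Agent.X179.EP.six_eq, ← hb, Pool.Agent.TH570.Hopf.gbc_ext,
        Pool.Agent.TH570.Hopf.scalar_ext, Pool.Agent.X183.HM.round_eq, hts]
  · intro M _ μ K h b c hc hi hi2
    rw [← integral_const_mul]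
    refine integral_mono hi (hi2.const_mul _) fun p => ?_
    have h1 := (other (K.V p) (K.e p) (K.R p) (h p) (b p) (c p) (K.curv p) (hc p)).2.1
    calc K.gb p ≤ _ := h1
      _ = _ := by ring
  · intro M _ μ _ K c hc hs hi hi2
    have hk := round_pos
    have hint : Integrable (fun p => roundGB 3 1 *
        (c ^ 2 * (scal (K.e p) (K.R p) / 10 + 2 * c))) μ :=
      (((hi2.div_const _).add (integrable_const _)).const_mul _).const_mul _
    have h1 : ∫ p, K.gb p ∂μ ≤ ∫ p, roundGB 3 1 *
        (c ^ 2 * (scal (K.e p) (K.R p) / 10 + 2 * c)) ∂μ :=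
      integral_mono hi hint fun p => mean_neg (K.e p) (K.curv p) hc.le (hs p)
    have h2 : ∫ p, roundGB 3 1 * (c ^ 2 * (scal (K.e p) (K.R p) / 10 + 2 * c)) ∂μ =
        roundGB 3 1 * (c ^ 2 * ((∫ p, scal (K.e p) (K.R p) ∂μ) / 10 +
          2 * c * μ.real Set.univ)) := by
      rw [integral_const_mul, integral_const_mul,
        integral_add (hi2.div_const _) (integrable_const _), integral_div, integral_const,
        smul_eq_mul]
      ring
    rw [h2] at h1
    refine ⟨fun h3 => h1.trans ?_, fun h3 => lt_of_le_of_lt h1 ?_⟩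
    · exact mul_nonpos_of_nonneg_of_nonpos hk.le
        (mul_nonpos_of_nonneg_of_nonpos (sq_nonneg _) (by linarith))
    · exact mul_neg_of_pos_of_neg hk (mul_neg_of_pos_of_neg (by positivity) (by linarith))
  · intro M _ μ K hi hp
    have hle : ∀ p, K.gb p ≤ 0 := by
      intro p
      obtain ⟨h, b, c, h1, h2⟩ := hp p
      exact (other (K.V p) (K.e p) (K.R p) h b c (K.curv p) h1).2.2.1 h2
    have h0 : ∫ p, K.gb p ∂μ ≤ 0 := integral_nonpos hle
    refine ⟨h0, fun hμ => lt_of_le_of_ne h0 fun heq => hμ ?_⟩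
    have hn : 0 ≤ fun p => -K.gb p := fun p => by
      have := hle p
      simp only [Pi.zero_apply]
      linarith
    have hi' : Integrable (fun p => -K.gb p) μ := hi.neg
    have h1 : (fun p => -K.gb p) =ᵐ[μ] 0 :=
      (integral_eq_zero_iff_of_nonneg hn hi').1 (by rw [integral_neg, heq, neg_zero])
    refine measure_mono_null ?_ h1
    rintro p ⟨h, b, c, h2, h3, h4⟩ h5
    have h6 := (other (K.V p) (K.e p) (K.R p) h b c (K.curv p) h2).2.2.2 h3 h4
    have h7 : -K.gb p = 0 := h5
    have h8 : K.gb p = gbc (K.e p) (K.R p) := rfl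
    linarith

end Pool.Agent.Results.MP_5a30bb_gt.SharpMeanPinching
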